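import Pool.Agent.H933.LL.Stm6

/-!
# Chain of averages under the quasi-hyperbolic boundary condition
-/

set_option autoImplicit false

open MeasureTheory Metric
open scoped Real

namespace Pool.Agent.H289.LL

open Pool.Agent.H933.LL

theorem infDist_pos {E : Set ℂ} (hE : IsClosed E) (hne : E.Nonempty) {z : ℂ} (hz : z ∉ E) :
    0 < infDist z E :=
  (hE.notMem_iff_infDist_pos hne).1 hz

theorem notMem_of_pos {E : Set ℂ} {z : ℂ} (h : 0 < infDist z E) : z ∉ E := by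
  intro hz
  rw [infDist_zero_of_mem hz] at h
  exact lt_irrefl _ h

theorem neg_log_min (δ : ℝ) (hδ : 0 < δ) :
    -Real.log (min 1 (δ / 2)) ≤ 1 + Real.posLog δ⁻¹ := by
  rcases le_total 1 (δ / 2) with h | h
  · rw [min_eq_left h, Real.log_one, neg_zero]
    have := Real.posLog_nonneg (x := δ⁻¹)
    linarith
  · rw [min_eq_right h, Real.log_div hδ.ne' two_ne_zero]
    have h1 : Real.log δ⁻¹ ≤ Real.posLog δ⁻¹ := le_max_right _ _
    rw [Real.log_inv] at h1
    have h2 : Real.log 2 ≤ 1 := by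
      have := Real.log_two_lt_d9
      linarith
    linarith

theorem rate_nonneg {X : Type} [NormedAddCommGroup X] [NormedSpace ℂ X] [CompleteSpace X]
    {S K : X →L[ℂ] X} {E : Set ℂ} {C A : ℝ} (hR : Rate S K E C A) : 0 ≤ C := by
  obtain ⟨n, φ, f, ρ, hρ, hn, -⟩ := hR.approx 1 one_pos le_rfl
  rw [Real.one_rpow, mul_one] at hn
  exact (Nat.cast_nonneg n).trans hn

/-- the local estimate with the constants of `Rate` -/
theorem base (h : P_loc3) (X : Type) [NormedAddCommGroup X] [NormedSpace ℂ X] [CompleteSpace X]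
    (S K : X →L[ℂ] X) (E : Set ℂ) (C A : ℝ) (hE : IsClosed E) (hne : E.Nonempty)
    (hR : Rate S K E C A) (z₀ v : ℂ) (hz : z₀ ∉ E) (hv : ‖v - z₀‖ < infDist z₀ E / 32)
    (hvr : v ∈ resolventSet ℂ (S + K)) :
    (∀ᵐ w ∂(volume.restrict (ball z₀ (11 * infDist z₀ E / 32))), w ∈ resolventSet ℂ (S + K)) ∧
    ∫⁻ w in ball z₀ (11 * infDist z₀ E / 32), ENNReal.ofReal (Real.posLog ‖resolvent (S + K) w‖)
      ≤ ENNReal.ofReal (π * infDist z₀ E ^ 2 * (25 * (C + 1) ^ 3 *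
        Real.exp (3 * max A 0 * (1 + Real.posLog (infDist z₀ E)⁻¹)) *
          (1 + Real.posLog ‖resolvent (S + K) v‖))) := by
  have hδ := infDist_pos hE hne hz
  have hC := rate_nonneg hR
  generalize hδ' : infDist z₀ E = δ at hδ hv
  have hd : 0 < min 1 (δ / 2) := lt_min one_pos (by positivity)
  have hd1 : min 1 (δ / 2) ≤ 1 := min_le_left _ _
  have hd2 : min 1 (δ / 2) ≤ δ / 2 := min_le_right _ _
  have hlogd := neg_log_min δ hδ
  generalize hdd : min 1 (δ / 2) = d at hd hd1 hd2 hlogd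
  obtain ⟨n, φ, f, ρ, hρ, hn, hlog, hφ, hres, happ⟩ := hR.approx d hd hd1
  have hball : ∀ w ∈ ball z₀ (δ / 2), δ / 2 ≤ infDist w E := by
    intro w hw
    have h1 := infDist_le_infDist_add_dist (s := E) (x := z₀) (y := w)
    rw [mem_ball, dist_comm] at hw
    rw [hδ'] at h1
    linarith
  have hout : ∀ w ∈ ball z₀ (δ / 2), w ∉ E := fun w hw =>
    notMem_of_pos (lt_of_lt_of_le (by positivity) (hball w hw))
  obtain ⟨h1, h2⟩ := h X S K z₀ v (δ / 2) ρ (Real.posLog ‖resolvent (S + K) v‖) n φ f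
    (by positivity) hρ
    (fun w hw => ⟨hR.res w (hout w hw), hres w (hd2.trans (hball w hw))⟩) hφ happ
    (by linarith) hvr le_rfl
  have e : 11 * (δ / 2) / 16 = 11 * δ / 32 := by ring
  rw [e] at h1 h2
  refine ⟨h1, h2.trans (ENNReal.ofReal_le_ofReal ?_)⟩
  have ht1 : 1 ≤ d ^ (-max A 0) := by
    have h4 := Real.rpow_le_rpow_of_exponent_ge hd hd1
      (neg_nonpos.2 (le_max_right A 0))
    rwa [Real.rpow_zero] at h4
  have ht2 : d ^ (-A) ≤ d ^ (-max A 0) :=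
    Real.rpow_le_rpow_of_exponent_ge hd hd1 (neg_le_neg (le_max_left A 0))
  have hlt : Real.log (d ^ (-max A 0)) = max A 0 * (-Real.log d) := by
    rw [Real.log_rpow hd]
    ring
  have ht0 : 0 < d ^ (-max A 0) := by linarith
  generalize d ^ (-max A 0) = t at ht1 ht2 hlt ht0
  have h5 : C * d ^ (-A) ≤ C * t := mul_le_mul_of_nonneg_left ht2 hC
  have h6 : ((n : ℝ) + 1) ≤ (C + 1) * t := by nlinarith
  have h7 : 1 + Real.log ρ ≤ (C + 1) * t := by nlinarith
  have h8 : 0 ≤ Real.log ρ := Real.log_nonneg hρ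
  have hℓ0 : 0 ≤ Real.posLog ‖resolvent (S + K) v‖ := Real.posLog_nonneg
  generalize Real.posLog ‖resolvent (S + K) v‖ = a at hℓ0
  have hn0 : (0 : ℝ) ≤ n := Nat.cast_nonneg n
  have h9 : ((n : ℝ) + 1) ^ 2 * (1 + Real.log ρ) ≤ (C + 1) ^ 3 * t ^ 3 := by
    have h10 : ((n : ℝ) + 1) ^ 2 ≤ ((C + 1) * t) ^ 2 :=
      pow_le_pow_left₀ (by positivity) h6 2
    calc ((n : ℝ) + 1) ^ 2 * (1 + Real.log ρ) ≤ ((C + 1) * t) ^ 2 * ((C + 1) * t) :=
          mul_le_mul h10 h7 (by linarith) (by positivity)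
      _ = _ := by ring
  have h10 : t ^ 3 ≤ Real.exp (3 * max A 0 * (1 + Real.posLog δ⁻¹)) := by
    have h12 : max A 0 * (-Real.log d) ≤ max A 0 * (1 + Real.posLog δ⁻¹) :=
      mul_le_mul_of_nonneg_left hlogd (le_max_right A 0)
    rw [← Real.exp_log (show 0 < t ^ 3 by positivity), Real.log_pow, hlt]
    apply Real.exp_le_exp.2
    push_cast
    linarith
  have h11 : (C + 1) ^ 3 * t ^ 3 ≤ (C + 1) ^ 3 * Real.exp (3 * max A 0 * (1 + Real.posLog δ⁻¹)) :=
    mul_le_mul_of_nonneg_left h10 (by positivity)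
  have h12 := h9.trans h11
  calc 100 * (π * (δ / 2) ^ 2) * ((n : ℝ) + 1) ^ 2 * (1 + Real.log ρ) * (1 + a)
      = π * δ ^ 2 * (25 * (((n : ℝ) + 1) ^ 2 * (1 + Real.log ρ)) * (1 + a)) := by ring
    _ ≤ π * δ ^ 2 * (25 * ((C + 1) ^ 3 * Real.exp (3 * max A 0 * (1 + Real.posLog δ⁻¹))) *
        (1 + a)) := by
        apply mul_le_mul_of_nonneg_left _ (by positivity)
        apply mul_le_mul_of_nonneg_right _ (by linarith)
        linarith
    _ = _ := by ring

theorem vol_helper (x r : ℝ) (hx : 0 ≤ x) (hr : 0 ≤ r) :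
    ENNReal.ofReal x * (ENNReal.ofReal r ^ 2 * NNReal.pi) = ENNReal.ofReal (x * (r ^ 2 * π)) := by
  rw [ENNReal.ofReal_mul hx, ENNReal.ofReal_mul (sq_nonneg r), ENNReal.ofReal_pow hr]
  congr 2
  rw [← NNReal.coe_real_pi, ENNReal.ofReal_coe_nnreal]

/-- one step of the chain -/
theorem step (h : P_loc3) (X : Type) [NormedAddCommGroup X] [NormedSpace ℂ X] [CompleteSpace X]
    (S K : X →L[ℂ] X) (E : Set ℂ) (C A : ℝ) (hE : IsClosed E) (hne : E.Nonempty)
    (hR : Rate S K E C A) (z₀ v z₁ : ℂ) (hz : z₀ ∉ E) (hv : ‖v - z₀‖ < infDist z₀ E / 32)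
    (hvr : v ∈ resolventSet ℂ (S + K)) (h01 : ‖z₁ - z₀‖ ≤ infDist z₀ E / 4) :
    ∃ v₁ : ℂ, ‖v₁ - z₁‖ < infDist z₁ E / 32 ∧ v₁ ∈ resolventSet ℂ (S + K) ∧
      Real.log (1 + Real.posLog ‖resolvent (S + K) v₁‖) ≤
        Real.log (1 + Real.posLog ‖resolvent (S + K) v‖) +
          (Real.log (50001 * (C + 1) ^ 3) +
            3 * max A 0 * (1 + Real.posLog (infDist z₀ E)⁻¹)) := by
  obtain ⟨h1, h2⟩ := base h X S K E C A hE hne hR z₀ v hz hv hvr
  have hC := rate_nonneg hR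
  have hδ := infDist_pos hE hne hz
  have hd1 := infDist_le_infDist_add_dist (s := E) (x := z₀) (y := z₁)
  have hd2 := infDist_le_infDist_add_dist (s := E) (x := z₁) (y := z₀)
  rw [dist_comm, dist_eq_norm] at hd1
  rw [dist_eq_norm] at hd2
  generalize infDist z₀ E = δ at *
  generalize infDist z₁ E = δ₁ at *
  have hδ1 : 3 / 4 * δ ≤ δ₁ := by linarith
  have hδ2 : δ₁ ≤ 5 / 4 * δ := by linarith
  have hδ1p : 0 < δ₁ := by linarith
  set a := Real.posLog ‖resolvent (S + K) v‖ with ha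
  have ha0 : 0 ≤ a := Real.posLog_nonneg
  set W := Real.exp (3 * max A 0 * (1 + Real.posLog δ⁻¹)) with hW
  have hW1 : 1 ≤ W := by
    rw [hW]
    apply Real.one_le_exp
    have := Real.posLog_nonneg (x := δ⁻¹)
    have := le_max_right A 0
    positivity
  have hC3 : (1 : ℝ) ≤ (C + 1) ^ 3 := one_le_pow₀ (by linarith)
  set a₁ : ℝ := 50000 * ((C + 1) ^ 3 * W * (1 + a)) with ha1
  have hbig : 1 ≤ (C + 1) ^ 3 * W * (1 + a) := by
    have h3 : 1 ≤ (C + 1) ^ 3 * W := by nlinarith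
    nlinarith
  have hsub : ball z₁ (δ₁ / 32) ⊆ ball z₀ (11 * δ / 32) := by
    intro w hw
    rw [mem_ball, dist_eq_norm] at hw ⊢
    have h3 : w - z₀ = (w - z₁) + (z₁ - z₀) := by ring
    rw [h3]
    have := norm_add_le (w - z₁) (z₁ - z₀)
    linarith
  have hex : ∃ v₁ ∈ ball z₁ (δ₁ / 32), v₁ ∈ resolventSet ℂ (S + K) ∧
      Real.posLog ‖resolvent (S + K) v₁‖ ≤ a₁ := by
    by_contra hcon
    push Not at hcon
    have h3 : ∀ᵐ w ∂(volume.restrict (ball z₁ (δ₁ / 32))), w ∈ resolventSet ℂ (S + K) :=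
      ae_mono (Measure.restrict_mono hsub le_rfl) h1
    have h4 : ∀ᵐ w ∂(volume.restrict (ball z₁ (δ₁ / 32))),
        ENNReal.ofReal a₁ ≤ ENNReal.ofReal (Real.posLog ‖resolvent (S + K) w‖) := by
      filter_upwards [h3, ae_restrict_mem measurableSet_ball] with w hw1 hw2
      exact ENNReal.ofReal_le_ofReal (hcon w hw2 hw1).le
    have h5 := lintegral_mono_ae h4
    rw [setLIntegral_const] at h5
    have h6 := h5.trans ((lintegral_mono_set hsub).trans h2)
    rw [Complex.volume_ball] at h6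
    have h7 : ENNReal.ofReal a₁ * (ENNReal.ofReal (δ₁ / 32) ^ 2 * NNReal.pi) =
        ENNReal.ofReal (a₁ * ((δ₁ / 32) ^ 2 * π)) :=
      vol_helper _ _ (by positivity) (by positivity)
    rw [h7, ENNReal.ofReal_le_ofReal_iff (by positivity)] at h6
    have h8 : (3 / 4 * δ) ^ 2 ≤ δ₁ ^ 2 := pow_le_pow_left₀ (by positivity) hδ1 2
    have hpi := Real.pi_pos
    have h9 : 25 * δ ^ 2 < 50000 * (δ₁ / 32) ^ 2 := by
      have : 0 < δ ^ 2 := by positivity
      nlinarith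
    have h10 : π * δ ^ 2 * (25 * (C + 1) ^ 3 * W * (1 + a)) <
        a₁ * ((δ₁ / 32) ^ 2 * π) := by
      have e1 : π * δ ^ 2 * (25 * (C + 1) ^ 3 * W * (1 + a)) =
          (25 * δ ^ 2) * (π * ((C + 1) ^ 3 * W * (1 + a))) := by ring
      have e2 : a₁ * ((δ₁ / 32) ^ 2 * π) =
          (50000 * (δ₁ / 32) ^ 2) * (π * ((C + 1) ^ 3 * W * (1 + a))) := by
        rw [ha1]; ring
      rw [e1, e2]
      exact mul_lt_mul_of_pos_right h9 (by positivity)
    linarith
  obtain ⟨v₁, hv1, hv2, hv3⟩ := hex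
  rw [mem_ball, dist_eq_norm] at hv1
  refine ⟨v₁, hv1, hv2, ?_⟩
  have hx0 : 0 ≤ Real.posLog ‖resolvent (S + K) v₁‖ := Real.posLog_nonneg
  have h11 : 1 + Real.posLog ‖resolvent (S + K) v₁‖ ≤ (50001 * (C + 1) ^ 3) * W * (1 + a) := by
    have : (50001 * (C + 1) ^ 3) * W * (1 + a) = a₁ + (C + 1) ^ 3 * W * (1 + a) := by
      rw [ha1]; ring
    rw [this]
    linarith
  have h12 := Real.log_le_log (by linarith) h11
  rw [Real.log_mul (by positivity) (by linarith), Real.log_mul (by positivity) (by positivity)] at h12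
  have h13 : Real.log W = 3 * max A 0 * (1 + Real.posLog δ⁻¹) := by rw [hW, Real.log_exp]
  rw [h13] at h12
  linarith

theorem posLog_step {E : Set ℂ} (z w : ℂ) (hz : 0 < infDist z E) (hw : 0 < infDist w E)
    (h : ‖w - z‖ ≤ infDist z E / 4) :
    Real.posLog (infDist z E)⁻¹ ≤ Real.posLog (infDist w E)⁻¹ + 1 := by
  have h1 := infDist_le_infDist_add_dist (s := E) (x := w) (y := z)
  rw [dist_eq_norm] at h1
  have h2 : infDist w E ≤ 5 / 4 * infDist z E := by linarith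
  have h3 : (infDist z E)⁻¹ ≤ 5 / 4 * (infDist w E)⁻¹ := by
    rw [← div_eq_mul_inv, le_div_iff₀ hw, inv_mul_le_iff₀ hz]
    linarith
  have h4 : Real.posLog (infDist z E)⁻¹ ≤ Real.posLog (5 / 4 * (infDist w E)⁻¹) :=
    Real.monotoneOn_posLog (Set.mem_Ici.2 (by positivity)) (Set.mem_Ici.2 (by positivity)) h3
  have h5 := Real.posLog_mul (x := 5 / 4) (y := (infDist w E)⁻¹)
  have h6 : Real.posLog (5 / 4 : ℝ) ≤ 1 := by
    refine max_le zero_le_one ?_
    have := Real.log_le_sub_one_of_pos (show (0 : ℝ) < 5 / 4 by norm_num)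
    linarith
  linarith

theorem p_chb3 (h : P_loc3) : P_chb3 := by
  intro X _ _ _ S K E C A hE hne hQ hR r
  have hC : 0 ≤ C := rate_nonneg hR
  obtain ⟨B, Cq, hB, hchain⟩ := hQ r
  obtain ⟨e₀, he₀⟩ := hne
  have hne : E.Nonempty := ⟨e₀, he₀⟩
  let M₀ : ℝ := ∑ b ∈ B, Real.log (1 + Real.posLog ‖resolvent (S + K) b‖)
  let a : ℝ := Real.log (50001 * (C + 1) ^ 3)
  let C₂ : ℝ := max Cq 0
  let A₁ : ℝ := max A 0
  let D₀ : ℝ := 25 * (C + 1) ^ 3 * (π * (|r| + ‖e₀‖) ^ 2 + 1)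
  have hC3 : (1 : ℝ) ≤ (C + 1) ^ 3 := one_le_pow₀ (by linarith)
  have hD1 : 1 ≤ D₀ := by
    have h1 : 1 ≤ π * (|r| + ‖e₀‖) ^ 2 + 1 := by
      have : 0 ≤ π * (|r| + ‖e₀‖) ^ 2 := by positivity
      linarith
    show 1 ≤ 25 * (C + 1) ^ 3 * (π * (|r| + ‖e₀‖) ^ 2 + 1)
    nlinarith
  refine ⟨Real.log D₀ + 3 * A₁ + (M₀ + C₂ * a + 3 * A₁ * C₂ * (1 + C₂)), fun z hz hzE => ?_⟩
  have ha : 0 ≤ a := Real.log_nonneg (by linarith)
  have hA : 0 ≤ A₁ := le_max_right _ _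
  have hC2 : 0 ≤ C₂ := le_max_right _ _
  have hterm : ∀ w : ℂ, 0 ≤ Real.log (1 + Real.posLog ‖resolvent (S + K) w‖) := by
    intro w
    have h1 : 0 ≤ Real.posLog ‖resolvent (S + K) w‖ := Real.posLog_nonneg
    exact Real.log_nonneg (by linarith)
  have hM : ∀ b ∈ B, Real.log (1 + Real.posLog ‖resolvent (S + K) b‖) ≤ M₀ := fun b hb =>
    Finset.single_le_sum (f := fun b => Real.log (1 + Real.posLog ‖resolvent (S + K) b‖))
      (fun b _ => hterm b) hb
  have hM0 : 0 ≤ M₀ := Finset.sum_nonneg fun b _ => hterm b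
  obtain ⟨N, c, hN, hc0, hcN, hc⟩ := hchain z hz hzE
  have hout : ∀ j, j ≤ N → c j ∉ E := by
    intro j
    induction j with
    | zero => intro _; exact (hB _ hc0).2
    | succ j ih =>
      intro hj
      have h1 := infDist_pos hE hne (ih (by omega))
      have h2 := hc j (by omega)
      have h3 := infDist_le_infDist_add_dist (s := E) (x := c j) (y := c (j + 1))
      rw [dist_comm, dist_eq_norm] at h3
      exact notMem_of_pos (by linarith)
  let L : ℝ := Real.posLog (infDist z E)⁻¹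
  have hL : 0 ≤ L := Real.posLog_nonneg
  have hLj : ∀ k, k ≤ N → Real.posLog (infDist (c (N - k)) E)⁻¹ ≤ L + k := by
    intro k
    induction k with
    | zero =>
      intro _
      rw [Nat.sub_zero, hcN]
      simp [L]
    | succ k ih =>
      intro hk
      have h1 := ih (by omega)
      have e : N - k = (N - (k + 1)) + 1 := by omega
      have h2 := posLog_step (E := E) (c (N - (k + 1))) (c (N - k))
        (infDist_pos hE hne (hout _ (by omega))) (infDist_pos hE hne (hout _ (by omega)))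
        (by rw [e]; exact hc _ (by omega))
      push_cast
      linarith
  have hm : ∀ j, j ≤ N → ∃ v : ℂ, ‖v - c j‖ < infDist (c j) E / 32 ∧
      v ∈ resolventSet ℂ (S + K) ∧ Real.log (1 + Real.posLog ‖resolvent (S + K) v‖) ≤
      M₀ + j * (a + 3 * A₁ * (1 + (L + N))) := by
    intro j
    induction j with
    | zero =>
      intro _
      have h1 := hM _ hc0
      have h2 := infDist_pos hE hne (hB _ hc0).2
      refine ⟨c 0, ?_, (hB _ hc0).1, by simpa using h1⟩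
      rw [sub_self, norm_zero]
      linarith
    | succ j ih =>
      intro hj
      obtain ⟨v, hv1, hv2, h1⟩ := ih (by omega)
      obtain ⟨v₁, hv3, hv4, h2⟩ := step h X S K E C A hE hne hR (c j) v (c (j + 1))
        (hout j (by omega)) hv1 hv2 (hc j (by omega))
      refine ⟨v₁, hv3, hv4, ?_⟩
      have h3 := hLj (N - j) (by omega)
      have e : N - (N - j) = j := by omega
      rw [e] at h3
      have h4 : ((N - j : ℕ) : ℝ) ≤ N := by exact_mod_cast Nat.sub_le N j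
      have h5 : 3 * A₁ * (1 + Real.posLog (infDist (c j) E)⁻¹) ≤ 3 * A₁ * (1 + (L + N)) :=
        mul_le_mul_of_nonneg_left (by linarith) (by positivity)
      push_cast
      have h6 : Real.log (1 + Real.posLog ‖resolvent (S + K) v₁‖) ≤
          Real.log (1 + Real.posLog ‖resolvent (S + K) v‖) +
          (a + 3 * A₁ * (1 + Real.posLog (infDist (c j) E)⁻¹)) := h2
      linarith
  obtain ⟨v, hv1, hv2, h1⟩ := hm N le_rfl
  rw [hcN] at hv1
  have h2 : (N : ℝ) ≤ C₂ * (1 + L) :=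
    hN.trans (mul_le_mul_of_nonneg_right (le_max_left _ _) (by linarith))
  have h4 : a + 3 * A₁ * (1 + (L + N)) ≤ (a + 3 * A₁ * (1 + C₂)) * (1 + L) := by
    have h5 : 3 * A₁ * (1 + (L + N)) ≤ 3 * A₁ * ((1 + C₂) * (1 + L)) :=
      mul_le_mul_of_nonneg_left (by nlinarith) (by positivity)
    nlinarith [mul_nonneg ha hL]
  have h5 : (N : ℝ) * (a + 3 * A₁ * (1 + (L + N))) ≤
      (C₂ * (1 + L)) * ((a + 3 * A₁ * (1 + C₂)) * (1 + L)) :=
    mul_le_mul h2 h4 (by positivity) (by positivity)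
  have hone : (1 : ℝ) ≤ (1 + L) ^ 2 := one_le_pow₀ (by linarith)
  have h6 : M₀ ≤ M₀ * (1 + L) ^ 2 := by nlinarith
  have h7 : Real.log (1 + Real.posLog ‖resolvent (S + K) v‖) ≤
      (M₀ + C₂ * a + 3 * A₁ * C₂ * (1 + C₂)) * (1 + L) ^ 2 := by
    have e : (M₀ + C₂ * a + 3 * A₁ * C₂ * (1 + C₂)) * (1 + L) ^ 2 =
        M₀ * (1 + L) ^ 2 + (C₂ * (1 + L)) * ((a + 3 * A₁ * (1 + C₂)) * (1 + L)) := by ring
    rw [e]
    linarith
  have hδ := infDist_pos hE hne hzE
  obtain ⟨g1, g2⟩ := base h X S K E C A hE hne hR z v hzE hv1 hv2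
  have hsub : ball z (infDist z E / 4) ⊆ ball z (11 * infDist z E / 32) :=
    ball_subset_ball (by linarith)
  refine ⟨ae_mono (Measure.restrict_mono hsub le_rfl) g1,
    (lintegral_mono_set hsub).trans (g2.trans (ENNReal.ofReal_le_ofReal ?_))⟩
  have hx0 : 0 ≤ Real.posLog ‖resolvent (S + K) v‖ := Real.posLog_nonneg
  have hδr : infDist z E ≤ |r| + ‖e₀‖ := by
    have h8 := infDist_le_dist_of_mem (x := z) he₀
    rw [dist_eq_norm] at h8
    have h9 := norm_sub_le z e₀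
    rw [mem_ball, dist_zero_right] at hz
    have h10 := le_abs_self r
    linarith
  have hδ2 : π * infDist z E ^ 2 ≤ π * (|r| + ‖e₀‖) ^ 2 + 1 := by
    have h8 : infDist z E ^ 2 ≤ (|r| + ‖e₀‖) ^ 2 := pow_le_pow_left₀ hδ.le hδr 2
    have h9 := mul_le_mul_of_nonneg_left h8 Real.pi_pos.le
    linarith
  have hfin : π * infDist z E ^ 2 * (25 * (C + 1) ^ 3 * Real.exp (3 * A₁ * (1 + L)) *
      (1 + Real.posLog ‖resolvent (S + K) v‖)) ≤
      Real.exp (Real.log D₀ + 3 * A₁ * (1 + L) +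
        Real.log (1 + Real.posLog ‖resolvent (S + K) v‖)) := by
    rw [Real.exp_add, Real.exp_add, Real.exp_log (by linarith), Real.exp_log (by linarith)]
    calc π * infDist z E ^ 2 * (25 * (C + 1) ^ 3 * Real.exp (3 * A₁ * (1 + L)) *
        (1 + Real.posLog ‖resolvent (S + K) v‖)) =
        (25 * (C + 1) ^ 3 * (π * infDist z E ^ 2)) * Real.exp (3 * A₁ * (1 + L)) *
        (1 + Real.posLog ‖resolvent (S + K) v‖) := by ring
      _ ≤ (25 * (C + 1) ^ 3 * (π * (|r| + ‖e₀‖) ^ 2 + 1)) * Real.exp (3 * A₁ * (1 + L)) *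
        (1 + Real.posLog ‖resolvent (S + K) v‖) := by gcongr
      _ = _ := rfl
  refine hfin.trans (Real.exp_le_exp.2 ?_)
  have hlD : 0 ≤ Real.log D₀ := Real.log_nonneg hD1
  have h8 : Real.log D₀ ≤ Real.log D₀ * (1 + L) ^ 2 := by nlinarith
  have h9 : 3 * A₁ * (1 + L) ≤ 3 * A₁ * (1 + L) ^ 2 := by
    apply mul_le_mul_of_nonneg_left _ (by positivity)
    nlinarith
  show Real.log D₀ + 3 * A₁ * (1 + L) + Real.log (1 + Real.posLog ‖resolvent (S + K) v‖) ≤
    (Real.log D₀ + 3 * A₁ + (M₀ + C₂ * a + 3 * A₁ * C₂ * (1 + C₂))) * (1 + L) ^ 2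
  have e : (Real.log D₀ + 3 * A₁ + (M₀ + C₂ * a + 3 * A₁ * C₂ * (1 + C₂))) * (1 + L) ^ 2 =
      Real.log D₀ * (1 + L) ^ 2 + 3 * A₁ * (1 + L) ^ 2 +
        (M₀ + C₂ * a + 3 * A₁ * C₂ * (1 + C₂)) * (1 + L) ^ 2 := by ring
  rw [e]
  linarith

end Pool.Agent.H289.LL
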